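import Mathlib

set_option autoImplicit false

open Filter Topology Metric Set

namespace Pool.Agent.H69N.UI

/-- the weight -/
noncomputable def rho (z : ℂ) : ℝ := |z.im| + Real.log (1 + ‖z‖ ^ 2)

lemma rho_nonneg (z : ℂ) : 0 ≤ rho z := by
  unfold rho
  have h1 : 0 ≤ Real.log (1 + ‖z‖ ^ 2) := Real.log_nonneg (by nlinarith [norm_nonneg z])
  have h2 := abs_nonneg z.im
  linarith

lemma log_le_rho (z : ℂ) : Real.log (1 + ‖z‖ ^ 2) ≤ rho z := by
  unfold rho
  have h2 := abs_nonneg z.im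
  linarith

lemma rho_le (z : ℂ) : rho z ≤ 3 * ‖z‖ := by
  unfold rho
  have h1 : |z.im| ≤ ‖z‖ := Complex.abs_im_le_norm z
  have h0 := norm_nonneg z
  have h2 : Real.log (1 + ‖z‖ ^ 2) ≤ 2 * ‖z‖ := by
    have h3 : Real.log (1 + ‖z‖ ^ 2) ≤ Real.log ((1 + ‖z‖) ^ 2) := by
      apply Real.log_le_log (by positivity)
      nlinarith
    rw [Real.log_pow] at h3
    have h4 : Real.log (1 + ‖z‖) ≤ ‖z‖ := by
      have := Real.log_le_sub_one_of_pos (show (0:ℝ) < 1 + ‖z‖ by positivity)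
      linarith
    push_cast at h3
    linarith
  linarith

lemma one_add_le_exp_rho (z : ℂ) : 1 + ‖z‖ ^ 2 ≤ Real.exp (rho z) := by
  have h : (1 + ‖z‖ ^ 2) = Real.exp (Real.log (1 + ‖z‖ ^ 2)) :=
    (Real.exp_log (by positivity)).symm
  rw [h]
  exact Real.exp_le_exp.2 (log_le_rho z)

/-- entire functions with a growth bound -/
def Cls (A B : ℝ) (f : ℂ → ℂ) : Prop :=
  Differentiable ℂ f ∧ ∀ z, ‖f z‖ ≤ A * Real.exp (B * rho z)

lemma Cls.mono {A A' B B' : ℝ} {f : ℂ → ℂ} (h : Cls A B f) (hA : A ≤ A') (hA' : 0 ≤ A')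
    (hB : B ≤ B') : Cls A' B' f := by
  refine ⟨h.1, fun z => (h.2 z).trans ?_⟩
  have h1 : Real.exp (B * rho z) ≤ Real.exp (B' * rho z) :=
    Real.exp_le_exp.2 (mul_le_mul_of_nonneg_right hB (rho_nonneg z))
  calc A * Real.exp (B * rho z) ≤ A' * Real.exp (B * rho z) :=
        mul_le_mul_of_nonneg_right hA (Real.exp_pos _).le
    _ ≤ A' * Real.exp (B' * rho z) := mul_le_mul_of_nonneg_left h1 hA'

lemma Cls.zero {A B : ℝ} (hA : 0 ≤ A) : Cls A B (fun _ => 0) :=
  ⟨differentiable_const _, fun z => by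
    simp only [norm_zero]
    exact mul_nonneg hA (Real.exp_pos _).le⟩

lemma Cls.sub {A B : ℝ} {f g : ℂ → ℂ} (hf : Cls A B f) (hg : Cls A B g) :
    Cls (2 * A) B (fun z => f z - g z) :=
  ⟨hf.1.sub hg.1, fun z => by
    have h1 := hf.2 z
    have h2 := hg.2 z
    have h3 := norm_sub_le (f z) (g z)
    linarith⟩

/-- uniformly bounded holomorphic functions converging pointwise converge locally uniformly -/
theorem tlu_pt {ι : Type*} {l : Filter ι} [l.NeBot] {F : ι → ℂ → ℂ} {f : ℂ → ℂ}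
    (hd : ∀ i, Differentiable ℂ (F i)) (hb : ∀ x, ∃ M, ∀ i, ∀ z ∈ ball x 1, ‖F i z‖ ≤ M)
    (hp : ∀ z, Tendsto (fun i => F i z) l (𝓝 (f z))) :
    TendstoLocallyUniformlyOn F f l univ := by
  obtain ⟨i0⟩ : Nonempty ι := l.nonempty_of_neBot
  rw [Metric.tendstoLocallyUniformlyOn_iff]
  intro ε hε x hx
  obtain ⟨M, hM'⟩ := hb x
  have hM : 0 ≤ M := le_trans (norm_nonneg _) (hM' i0 x (mem_ball_self one_pos))
  set L : ℝ := (2 * M + 1) with hL
  have hLp : 0 < L := by positivity
  have key : ∀ i, ∀ z ∈ ball x 1, dist (F i z) (F i x) ≤ L * dist z x := by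
    intro i z hz
    have hmaps : MapsTo (F i) (ball x 1) (closedBall (F i x) (2 * M)) := by
      intro w hw
      rw [mem_closedBall, dist_eq_norm]
      have h1 := hM' i w hw
      have h2 := hM' i x (mem_ball_self one_pos)
      have h3 := norm_sub_le (F i w) (F i x)
      linarith
    have h4 := Complex.dist_le_div_mul_dist_of_mapsTo_ball (hd i).differentiableOn hmaps hz
    refine h4.trans ?_
    rw [hL, div_one]
    gcongr
    linarith
  have keyf : ∀ z ∈ ball x 1, dist (f z) (f x) ≤ L * dist z x := by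
    intro z hz
    have h1 : Tendsto (fun i => dist (F i z) (F i x)) l (𝓝 (dist (f z) (f x))) :=
      (hp z).dist (hp x)
    exact le_of_tendsto h1 (Eventually.of_forall fun i => key i z hz)
  refine ⟨ball x (min 1 (ε / (4 * L))), mem_nhdsWithin_of_mem_nhds (ball_mem_nhds _ (by positivity)), ?_⟩
  have hx' : ∀ᶠ i in l, dist (F i x) (f x) < ε / 4 := (Metric.tendsto_nhds.1 (hp x)) _ (by positivity)
  filter_upwards [hx'] with i hi y hy
  have hy1 : y ∈ ball x 1 := ball_subset_ball (min_le_left _ _) hy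
  have hy2 : dist y x < ε / (4 * L) := lt_of_lt_of_le hy (min_le_right _ _)
  have hy3 : L * dist y x < ε / 4 := by
    calc L * dist y x < L * (ε / (4 * L)) := by gcongr
      _ = ε / 4 := by field_simp
  have h1 := key i y hy1
  have h2 := keyf y hy1
  calc dist (f y) (F i y) ≤ dist (f y) (f x) + dist (f x) (F i x) + dist (F i x) (F i y) :=
        dist_triangle4 _ _ _ _
    _ < ε := by
        rw [dist_comm (f x), dist_comm (F i x) (F i y)]
        linarith

lemma tlu_iterated {ι : Type*} {l : Filter ι} [l.NeBot] {F : ι → ℂ → ℂ} {f : ℂ → ℂ}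
    (hd : ∀ i, Differentiable ℂ (F i)) (h : TendstoLocallyUniformlyOn F f l univ) (k : ℕ) :
    TendstoLocallyUniformlyOn (fun i => iteratedDeriv k (F i)) (iteratedDeriv k f) l univ ∧
      ∀ i, Differentiable ℂ (iteratedDeriv k (F i)) := by
  induction k with
  | zero => simpa using ⟨h, hd⟩
  | succ k ih =>
    constructor
    · have h1 := ih.1.deriv (Eventually.of_forall fun i => (ih.2 i).differentiableOn) isOpen_univ
      simp only [iteratedDeriv_succ]
      exact h1
    · intro i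
      rw [iteratedDeriv_succ]
      exact (ih.2 i).deriv

/-- compactness of the class -/
theorem compact_cls {ι : Type*} (l : Ultrafilter ι) {A B : ℝ} {F : ι → ℂ → ℂ}
    (hF : ∀ i, Cls A B (F i)) :
    ∃ f : ℂ → ℂ, Cls A B f ∧
      ∀ (k : ℕ) (a : ℂ), Tendsto (fun i => iteratedDeriv k (F i) a) l (𝓝 (iteratedDeriv k f a)) := by
  have hpt : ∀ z : ℂ, ∃ y : ℂ, Tendsto (fun i => F i z) l (𝓝 y) ∧
      ‖y‖ ≤ A * Real.exp (B * rho z) := by
    intro z
    have hc : IsCompact (closedBall (0 : ℂ) (A * Real.exp (B * rho z))) := isCompact_closedBall _ _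
    obtain ⟨y, hy1, hy⟩ := hc.ultrafilter_le_nhds (l.map (fun i => F i z)) (by
      rw [le_principal_iff]
      change (fun i => F i z) ⁻¹' _ ∈ (l : Filter ι)
      exact univ_mem' (fun i => mem_closedBall_zero_iff.2 ((hF i).2 z)))
    exact ⟨y, hy, mem_closedBall_zero_iff.1 hy1⟩
  choose f hf hfb using hpt
  have hb : ∀ x, ∃ M, ∀ i, ∀ z ∈ ball x 1, ‖F i z‖ ≤ M := by
    intro x
    refine ⟨|A| * Real.exp (|B| * (3 * (‖x‖ + 1))), fun i z hz => ((hF i).2 z).trans ?_⟩
    have h1 : ‖z‖ ≤ ‖x‖ + 1 := by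
      have h2 : ‖z - x‖ < 1 := by rwa [← dist_eq_norm]
      have h3 := norm_le_norm_add_norm_sub' z x
      linarith
    have h2 : B * rho z ≤ |B| * (3 * (‖x‖ + 1)) := by
      have h3 : rho z ≤ 3 * (‖x‖ + 1) := (rho_le z).trans (by linarith)
      calc B * rho z ≤ |B| * rho z := mul_le_mul_of_nonneg_right (le_abs_self B) (rho_nonneg z)
        _ ≤ _ := mul_le_mul_of_nonneg_left h3 (abs_nonneg B)
    calc A * Real.exp (B * rho z) ≤ |A| * Real.exp (B * rho z) :=
          mul_le_mul_of_nonneg_right (le_abs_self A) (Real.exp_pos _).le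
      _ ≤ _ := mul_le_mul_of_nonneg_left (Real.exp_le_exp.2 h2) (abs_nonneg A)
  have htlu : TendstoLocallyUniformlyOn F f l univ :=
    tlu_pt (fun i => (hF i).1) hb hf
  have hd' : Differentiable ℂ f := by
    rw [← differentiableOn_univ]
    exact htlu.differentiableOn (Eventually.of_forall fun i => (hF i).1.differentiableOn) isOpen_univ
  refine ⟨f, ⟨hd', hfb⟩, fun k a => ?_⟩
  exact (tlu_iterated (fun i => (hF i).1) htlu k).1.tendsto_at (mem_univ a)

end Pool.Agent.H69N.UI
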