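import Mathlib
import Pool.Agent.H69N.UI.Basic

set_option autoImplicit false

open Filter Topology Metric Set

namespace Pool.Agent.H69N.UI

/-- interpolation data: top coefficients prescribed by a set of indices -/
def Del (a : ℕ → ℂ) (p : ℕ → ℕ) (s : ℕ → Bool) (g : ℂ → ℂ) : Prop :=
  ∀ m, ∀ κ < p m, iteratedDeriv κ g (a m) / (κ.factorial : ℂ) =
    if (κ + 1 = p m ∧ s m = true) then 1 else 0

lemma closed_K (a : ℕ → ℂ) (p : ℕ → ℕ) (j : ℕ) :
    IsClosed {s : ℕ → Bool | ∃ g, Cls j j g ∧ Del a p s g} := by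
  classical
  rw [isClosed_iff_ultrafilter]
  intro s u hu hmem
  set F : (ℕ → Bool) → ℂ → ℂ := fun t =>
    if h : ∃ g, Cls (j : ℝ) (j : ℝ) g ∧ Del a p t g then h.choose else fun _ => 0 with hF
  have hFc : ∀ t, Cls (j : ℝ) (j : ℝ) (F t) := by
    intro t
    simp only [hF]
    split_ifs with h
    · exact h.choose_spec.1
    · exact Cls.zero (Nat.cast_nonneg j)
  have hFd : ∀ t, (∃ g, Cls (j : ℝ) (j : ℝ) g ∧ Del a p t g) → Del a p t (F t) := by
    intro t h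
    simp only [hF]
    rw [dif_pos h]
    exact h.choose_spec.2
  obtain ⟨f, hf1, hf2⟩ := compact_cls u hFc
  refine ⟨f, hf1, fun m κ hκ => ?_⟩
  have h1 : Tendsto (fun t => iteratedDeriv κ (F t) (a m) / (κ.factorial : ℂ)) u
      (𝓝 (iteratedDeriv κ f (a m) / (κ.factorial : ℂ))) := (hf2 κ (a m)).div_const _
  have h2 : Tendsto (fun t => iteratedDeriv κ (F t) (a m) / (κ.factorial : ℂ)) u
      (𝓝 (if (κ + 1 = p m ∧ s m = true) then 1 else 0)) := by
    refine tendsto_const_nhds.congr' ?_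
    have h3 : ∀ᶠ t in 𝓝 s, t m = s m := by
      have h4 : Tendsto (fun t : ℕ → Bool => t m) (𝓝 s) (𝓝 (s m)) :=
        (continuous_apply m).tendsto s
      rw [nhds_discrete Bool, tendsto_pure] at h4
      exact h4
    filter_upwards [hu h3, hmem] with t ht1 ht2
    rw [hFd t ht2 m κ hκ, ht1]
  exact tendsto_nhds_unique h1 h2

lemma unif {a : ℕ → ℂ} {p : ℕ → ℕ}
    (hint : ∀ s : ℕ → Bool, ∃ g, (∃ A > (0:ℝ), ∃ B > (0:ℝ), Cls A B g) ∧ Del a p s g) :
    ∃ A > (0:ℝ), ∃ B > (0:ℝ), ∀ n, ∃ g, Cls A B g ∧ ∀ m, ∀ κ < p m,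
      iteratedDeriv κ g (a m) / (κ.factorial : ℂ) = if (κ + 1 = p m ∧ m = n) then 1 else 0 := by
  classical
  have hcov : ⋃ j : ℕ, {s : ℕ → Bool | ∃ g, Cls j j g ∧ Del a p s g} = univ := by
    rw [eq_univ_iff_forall]
    intro s
    obtain ⟨g, ⟨A, hA, B, hB, hg⟩, hd⟩ := hint s
    obtain ⟨j, hj⟩ := exists_nat_ge (max A B)
    exact mem_iUnion.2 ⟨j, g, hg.mono ((le_max_left _ _).trans hj) (Nat.cast_nonneg j)
      ((le_max_right _ _).trans hj), hd⟩
  obtain ⟨j, s, hs⟩ := nonempty_interior_of_iUnion_of_closed (fun j => closed_K a p j) hcov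
  rw [mem_interior] at hs
  obtain ⟨U, hUK, hU, hsU⟩ := hs
  rw [isOpen_pi_iff] at hU
  obtain ⟨I, w, hw, hIU⟩ := hU s hsU
  -- indices outside `I`
  have hout : ∀ n ∉ I, ∃ g, Cls (2 * j : ℝ) j g ∧ ∀ m, ∀ κ < p m,
      iteratedDeriv κ g (a m) / (κ.factorial : ℂ) = if (κ + 1 = p m ∧ m = n) then 1 else 0 := by
    intro n hn
    have hmem : ∀ b : Bool, Function.update s n b ∈ U := by
      intro b
      apply hIU
      intro i hi
      have : i ≠ n := fun h => hn (h ▸ hi)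
      rw [Function.update_of_ne this]
      exact (hw i hi).2
    obtain ⟨g1, hg1, hd1⟩ := hUK (hmem true)
    obtain ⟨g2, hg2, hd2⟩ := hUK (hmem false)
    refine ⟨fun z => g1 z - g2 z, hg1.sub hg2, fun m κ hκ => ?_⟩
    have hc1 : ContDiffAt ℂ κ g1 (a m) := (hg1.1.contDiff).contDiffAt
    have hc2 : ContDiffAt ℂ κ g2 (a m) := (hg2.1.contDiff).contDiffAt
    rw [iteratedDeriv_fun_sub hc1 hc2, sub_div, hd1 m κ hκ, hd2 m κ hκ]
    by_cases hmn : m = n
    · subst hmn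
      simp
    · simp [hmn]
  -- indices in `I`
  have hin : ∀ n, ∃ J : ℕ, ∃ g, Cls (J : ℝ) J g ∧ ∀ m, ∀ κ < p m,
      iteratedDeriv κ g (a m) / (κ.factorial : ℂ) = if (κ + 1 = p m ∧ m = n) then 1 else 0 := by
    intro n
    obtain ⟨g, ⟨A, hA, B, hB, hg⟩, hd⟩ := hint (fun m => decide (m = n))
    obtain ⟨J, hJ⟩ := exists_nat_ge (max A B)
    refine ⟨J, g, hg.mono ((le_max_left _ _).trans hJ) (Nat.cast_nonneg J)
      ((le_max_right _ _).trans hJ), fun m κ hκ => ?_⟩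
    rw [hd m κ hκ]
    simp
  choose J hJ using hin
  set M : ℕ := I.sup J + 2 * j + 1 with hM
  have hMpos : (0:ℝ) < M := by rw [hM]; positivity
  refine ⟨M, hMpos, M, hMpos, fun n => ?_⟩
  by_cases hn : n ∈ I
  · obtain ⟨g, hg, hd⟩ := hJ n
    have h1 : J n ≤ M := by
      have : J n ≤ I.sup J := Finset.le_sup hn
      omega
    have h2 : (J n : ℝ) ≤ M := by exact_mod_cast h1
    exact ⟨g, hg.mono h2 hMpos.le h2, hd⟩
  · obtain ⟨g, hg, hd⟩ := hout n hn
    have h1 : (2 * j : ℝ) ≤ M := by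
      have : 2 * j ≤ M := by omega
      exact_mod_cast this
    have h2 : (j : ℝ) ≤ M := by
      have : j ≤ M := by omega
      exact_mod_cast this
    exact ⟨g, hg.mono h1 hMpos.le h2, hd⟩

end Pool.Agent.H69N.UI
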