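import Mathlib
import Pool.Agent.H69N.UI.Basic

set_option autoImplicit false

open Filter Topology Metric Set

namespace Pool.Agent.H69N.UI

/-- zero counting: elementary form of Jensen's inequality -/
lemma jensen (s : Finset ℂ) : ∀ (G : ℂ → ℂ) (R M : ℝ), 0 < R → Differentiable ℂ G →
    (∀ x ∈ s, G x = 0) → (∀ x ∈ s, ‖x‖ ≤ R) → (∀ z, ‖z‖ = 3 * R → ‖G z‖ ≤ M) →
    ‖G 0‖ * 2 ^ s.card ≤ M := by
  classical
  induction s using Finset.induction_on with
  | empty =>
    intro G R M hR hG _ _ hM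
    simp only [Finset.card_empty, pow_zero, mul_one]
    have h1 : ∀ z ∈ frontier (ball (0 : ℂ) (3 * R)), ‖G z‖ ≤ M := by
      intro z hz
      rw [frontier_ball (0 : ℂ) (by positivity)] at hz
      exact hM z (by simpa using hz)
    exact Complex.norm_le_of_forall_mem_frontier_norm_le isBounded_ball hG.diffContOnCl h1
      (subset_closure (mem_ball_self (by positivity)))
  | insert x s hx ih =>
    intro G R M hR hG h0 hs hM
    have hGx : G x = 0 := h0 x (Finset.mem_insert_self _ _)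
    have hxR : ‖x‖ ≤ R := hs x (Finset.mem_insert_self _ _)
    set H : ℂ → ℂ := dslope G x with hH
    have hHd : Differentiable ℂ H := by
      rw [← differentiableOn_univ]
      exact (Complex.differentiableOn_dslope (by simp)).2 hG.differentiableOn
    have hval : ∀ z, G z = (z - x) * H z := by
      intro z
      have := sub_smul_dslope G x z
      rw [hGx, sub_zero, smul_eq_mul] at this
      exact this.symm
    have h1 : ∀ y ∈ s, H y = 0 := by
      intro y hy
      have h2 : y ≠ x := fun h => hx (h ▸ hy)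
      have h3 := h0 y (Finset.mem_insert_of_mem hy)
      rw [hval y] at h3
      rcases mul_eq_zero.1 h3 with h4 | h4
      · exact absurd (sub_eq_zero.1 h4) h2
      · exact h4
    have h2 : ∀ z, ‖z‖ = 3 * R → ‖H z‖ ≤ M / (2 * R) := by
      intro z hz
      have h3 := hM z hz
      rw [hval z, norm_mul] at h3
      have h4 : 2 * R ≤ ‖z - x‖ := by
        have := norm_sub_norm_le z x
        linarith
      rw [le_div_iff₀ (by positivity)]
      calc ‖H z‖ * (2 * R) ≤ ‖H z‖ * ‖z - x‖ := by gcongr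
        _ = ‖z - x‖ * ‖H z‖ := mul_comm _ _
        _ ≤ M := h3
    have h3 := ih H R (M / (2 * R)) hR hHd h1 (fun y hy => hs y (Finset.mem_insert_of_mem hy)) h2
    rw [Finset.card_insert_of_notMem hx, hval 0, norm_mul, zero_sub, norm_neg]
    rw [le_div_iff₀ (by positivity)] at h3
    have h5 : 0 ≤ ‖H 0‖ * 2 ^ s.card := by positivity
    calc ‖x‖ * ‖H 0‖ * 2 ^ (s.card + 1) = (‖H 0‖ * 2 ^ s.card) * (2 * ‖x‖) := by ring
      _ ≤ (‖H 0‖ * 2 ^ s.card) * (2 * R) := by gcongr
      _ ≤ M := h3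

/-- number of zeros of a function of the class -/
lemma count {A B : ℝ} {F : ℂ → ℂ} (hA : 0 < A) (hB : 0 < B) (hF : Cls A B F) {z₀ : ℂ}
    (hz : F z₀ ≠ 0) : ∃ C : ℝ, 0 < C ∧ ∀ (s : Finset ℂ) (R : ℝ), 1 ≤ R → (∀ x ∈ s, F x = 0) →
      (∀ x ∈ s, ‖x - z₀‖ ≤ R) → (s.card : ℝ) ≤ C * R := by
  classical
  have hn : 0 < ‖F z₀‖ := norm_pos_iff.2 hz
  have hl2 : 0 < Real.log 2 := Real.log_pos one_lt_two
  set D : ℝ := |Real.log (A / ‖F z₀‖)| + B * (3 * (3 + ‖z₀‖)) with hD
  have hDpos : 0 < D := by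
    have : 0 < B * (3 * (3 + ‖z₀‖)) := by positivity
    have := abs_nonneg (Real.log (A / ‖F z₀‖))
    linarith
  refine ⟨D / Real.log 2, by positivity, fun s R hR hs hsR => ?_⟩
  set G : ℂ → ℂ := fun z => F (z + z₀) with hG
  have hGd : Differentiable ℂ G := hF.1.comp (differentiable_id.add_const _)
  set s' : Finset ℂ := s.image (fun x => x - z₀) with hs'
  have hcard : s'.card = s.card := Finset.card_image_of_injective _ (sub_left_injective)
  have h1 : ‖G 0‖ * 2 ^ s'.card ≤ A * Real.exp (B * (3 * (3 * R + ‖z₀‖))) := by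
    apply jensen s' G R _ (by linarith) hGd
    · intro x hx
      obtain ⟨y, hy, rfl⟩ := Finset.mem_image.1 hx
      simp only [hG, sub_add_cancel]
      exact hs y hy
    · intro x hx
      obtain ⟨y, hy, rfl⟩ := Finset.mem_image.1 hx
      exact hsR y hy
    · intro z hz'
      refine (hF.2 _).trans ?_
      have h2 : rho (z + z₀) ≤ 3 * (3 * R + ‖z₀‖) := by
        refine (rho_le _).trans ?_
        have := norm_add_le z z₀
        rw [hz'] at this
        linarith
      gcongr
  have hG0 : G 0 = F z₀ := by simp [hG]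
  rw [hG0, hcard] at h1
  have h2 : (2:ℝ) ^ s.card ≤ A / ‖F z₀‖ * Real.exp (B * (3 * (3 * R + ‖z₀‖))) := by
    rw [div_mul_eq_mul_div, le_div_iff₀ hn]
    linarith
  have h3 := Real.log_le_log (by positivity) h2
  rw [Real.log_pow, Real.log_mul (by positivity) (Real.exp_pos _).ne', Real.log_exp] at h3
  rw [div_mul_eq_mul_div, le_div_iff₀ hl2]
  refine h3.trans ?_
  have h4 : Real.log (A / ‖F z₀‖) ≤ |Real.log (A / ‖F z₀‖)| * R := by
    have h5 := le_abs_self (Real.log (A / ‖F z₀‖))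
    have h6 := abs_nonneg (Real.log (A / ‖F z₀‖))
    nlinarith
  have h7 : B * (3 * (3 * R + ‖z₀‖)) ≤ B * (3 * (3 + ‖z₀‖)) * R := by
    have h8 : ‖z₀‖ ≤ ‖z₀‖ * R := by nlinarith [norm_nonneg z₀]
    nlinarith
  calc Real.log (A / ‖F z₀‖) + B * (3 * (3 * R + ‖z₀‖))
      ≤ |Real.log (A / ‖F z₀‖)| * R + B * (3 * (3 + ‖z₀‖)) * R := add_le_add h4 h7
    _ = D * R := by rw [hD]; ring

end Pool.Agent.H69N.UI
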