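import Mathlib

set_option autoImplicit false

open Filter Topology Metric Set MeasureTheory
open scoped ENNReal

namespace Pool.Agent.H69N.UI

/-- uniform measure on `[0,1]` -/
noncomputable def mu1 : Measure ℝ := (volume : Measure ℝ).restrict (Icc 0 1)

instance : IsProbabilityMeasure mu1 := by
  refine ⟨?_⟩
  unfold mu1
  simp

lemma one_coord (α β : ℂ) (hβ : β ≠ 0) (t : ℝ) :
    mu1 {y : ℝ | ‖α + y * β‖ < t} ≤ ENNReal.ofReal (2 * t / ‖β‖) := by
  have hb : 0 < ‖β‖ := norm_pos_iff.2 hβ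
  have hsub : {y : ℝ | ‖α + y * β‖ < t} ⊆ ball (-(α / β).re) (t / ‖β‖) := by
    intro y hy
    have hy' : ‖α + y * β‖ < t := hy
    have h1 : α + y * β = β * (α / β + y) := by
      field_simp
    rw [h1, norm_mul] at hy'
    have h2 : |(α / β + y).re| ≤ ‖α / β + y‖ := Complex.abs_re_le_norm _
    rw [mem_ball, Real.dist_eq]
    have h3 : (α / β + y).re = y - -(α / β).re := by
      simp
      ring
    rw [← h3]
    refine lt_of_le_of_lt h2 ?_
    rw [lt_div_iff₀ hb]
    linarith [mul_comm ‖β‖ ‖α / β + y‖]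
  calc mu1 {y : ℝ | ‖α + y * β‖ < t} ≤ mu1 (ball (-(α / β).re) (t / ‖β‖)) := measure_mono hsub
    _ ≤ volume (ball (-(α / β).re) (t / ‖β‖)) := Measure.restrict_apply_le _ _
    _ = ENNReal.ofReal (2 * (t / ‖β‖)) := Real.volume_ball _ _
    _ = _ := by rw [mul_div_assoc]

lemma lmarg_const {δ : Type*} [Fintype δ] [DecidableEq δ] (s : Finset δ) (c : ℝ≥0∞)
    (x : δ → ℝ) : (∫⋯∫⁻_s, (fun _ => c) ∂(fun _ : δ => mu1)) x = c := by
  simp [lmarginal]

lemma bad {N : ℕ} (β : Fin N → ℂ) (n : Fin N) (hn : β n ≠ 0) (t : ℝ) :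
    Measure.pi (fun _ : Fin N => mu1) {x | ‖∑ k, (x k : ℂ) * β k‖ < t} ≤
      ENNReal.ofReal (2 * t / ‖β n‖) := by
  classical
  set S : Set (Fin N → ℝ) := {x | ‖∑ k, (x k : ℂ) * β k‖ < t} with hS
  have hmeas : MeasurableSet S := by
    apply IsOpen.measurableSet
    apply isOpen_lt _ continuous_const
    fun_prop
  have hf : Measurable (S.indicator (fun _ => (1 : ℝ≥0∞))) := measurable_const.indicator hmeas
  have h1 : Measure.pi (fun _ : Fin N => mu1) S
      = (∫⋯∫⁻_Finset.univ, S.indicator (fun _ => (1 : ℝ≥0∞)) ∂(fun _ : Fin N => mu1)) 0 := by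
    rw [← lintegral_eq_lmarginal_univ, lintegral_indicator hmeas]
    simp
  rw [h1, lmarginal_erase' _ hf (Finset.mem_univ n)]
  rw [← lmarg_const (Finset.univ.erase n) (ENNReal.ofReal (2 * t / ‖β n‖)) (0 : Fin N → ℝ)]
  apply lmarginal_mono
  intro x
  show ∫⁻ y, S.indicator (fun _ => (1 : ℝ≥0∞)) (Function.update x n y) ∂mu1 ≤
    ENNReal.ofReal (2 * t / ‖β n‖)
  have h2 : ∀ y : ℝ, S.indicator (fun _ => (1 : ℝ≥0∞)) (Function.update x n y) =
      ({y : ℝ | ‖(∑ k ∈ Finset.univ.erase n, (x k : ℂ) * β k) + y * β n‖ < t} : Set ℝ).indicator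
        (fun _ => (1 : ℝ≥0∞)) y := by
    intro y
    have h3 : ∑ k, ((Function.update x n y) k : ℂ) * β k =
        (∑ k ∈ Finset.univ.erase n, (x k : ℂ) * β k) + y * β n := by
      rw [← Finset.sum_erase_add _ _ (Finset.mem_univ n)]
      congr 1
      · apply Finset.sum_congr rfl
        intro k hk
        rw [Function.update_of_ne (Finset.ne_of_mem_erase hk)]
      · simp
    simp only [indicator, hS, mem_ofPred_eq, h3]
  simp_rw [h2]
  have hm2 : MeasurableSet {y : ℝ | ‖(∑ k ∈ Finset.univ.erase n, (x k : ℂ) * β k) + y * β n‖ < t} := by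
    apply IsOpen.measurableSet
    apply isOpen_lt _ continuous_const
    fun_prop
  rw [lintegral_indicator hm2]
  simp only [lintegral_const, MeasurableSet.univ, Measure.restrict_apply, univ_inter, one_mul]
  exact one_coord _ _ hn t

/-- selection of a point of the cube at which many linear forms are not small -/
lemma select {N : ℕ} (β : Fin N → Fin N → ℂ) (t : Fin N → ℝ) (ht : ∀ n, 0 ≤ t n)
    (hd : ∀ n, β n n ≠ 0) (hsum : ∑ n, 2 * t n / ‖β n n‖ < 1) :
    ∃ x : Fin N → ℝ, (∀ k, x k ∈ Icc (0:ℝ) 1) ∧ ∀ n, t n ≤ ‖∑ k, (x k : ℂ) * β n k‖ := by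
  classical
  set P := Measure.pi (fun _ : Fin N => mu1) with hP
  have hbox : P (Set.pi univ fun _ => Icc (0:ℝ) 1) = 1 := by
    rw [hP, Measure.pi_pi]
    have : mu1 (Icc 0 1) = 1 := by
      unfold mu1
      simp
    simp [this]
  have hbad : P (⋃ n, {x | ‖∑ k, (x k : ℂ) * β n k‖ < t n}) < 1 := by
    calc P (⋃ n, {x | ‖∑ k, (x k : ℂ) * β n k‖ < t n})
        ≤ ∑ n, P {x | ‖∑ k, (x k : ℂ) * β n k‖ < t n} := measure_iUnion_fintype_le _ _
      _ ≤ ∑ n, ENNReal.ofReal (2 * t n / ‖β n n‖) :=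
          Finset.sum_le_sum fun n _ => bad (β n) n (hd n) (t n)
      _ = ENNReal.ofReal (∑ n, 2 * t n / ‖β n n‖) := by
          rw [ENNReal.ofReal_sum_of_nonneg]
          intro n _
          have := ht n
          positivity
      _ < 1 := by
          rw [ENNReal.ofReal_lt_one]
          exact hsum
  by_contra hcon
  push Not at hcon
  have hsub : (Set.pi univ fun _ : Fin N => Icc (0:ℝ) 1) ⊆
      ⋃ n, {x | ‖∑ k, (x k : ℂ) * β n k‖ < t n} := by
    intro x hx
    obtain ⟨n, hn⟩ := hcon x (fun k => hx k (mem_univ k))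
    exact mem_iUnion.2 ⟨n, hn⟩
  have := measure_mono (μ := P) hsub
  rw [hbox] at this
  exact absurd (lt_of_le_of_lt this hbad) (lt_irrefl _)

end Pool.Agent.H69N.UI
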