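import Mathlib
import Pool.Agent.H69N.UI.Count

set_option autoImplicit false

open Filter Topology Metric Set

namespace Pool.Agent.H69N.UI

lemma summ {A B : ℝ} {F : ℂ → ℂ} (hA : 0 < A) (hB : 0 < B) (hF : Cls A B F) {z₀ : ℂ}
    (hz : F z₀ ≠ 0) {a : ℕ → ℂ} (ha : Function.Injective a) (h0 : ∀ n, F (a n) = 0) :
    Summable (fun n => ((1 + ‖a n‖ ^ 2) ^ 2)⁻¹) := by
  classical
  obtain ⟨C, hC, hcount⟩ := count hA hB hF hz
  set k : ℕ → ℕ := fun n => ⌊‖a n - z₀‖⌋₊ with hk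
  have hS : Summable (fun j : ℕ => (((j : ℝ) + 1) ^ 3)⁻¹) := by
    have h1 : Summable (fun j : ℕ => (((j : ℝ)) ^ 3)⁻¹) :=
      Real.summable_nat_pow_inv.2 (by norm_num)
    have h2 := (summable_nat_add_iff 1).2 h1
    simpa using h2
  set S : ℝ := ∑' j : ℕ, (((j : ℝ) + 1) ^ 3)⁻¹ with hSdef
  set Z : ℝ := 1 + ‖z₀‖ ^ 2 with hZ
  have hZ1 : 1 ≤ Z := by rw [hZ]; nlinarith [norm_nonneg z₀]
  have hterm : ∀ n, ((1 + ‖a n‖ ^ 2) ^ 2)⁻¹ ≤ 16 * Z ^ 2 * (((k n : ℝ) + 1) ^ 4)⁻¹ := by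
    intro n
    have h1 : (k n : ℝ) ≤ ‖a n - z₀‖ := Nat.floor_le (norm_nonneg _)
    have h2 : ((k n : ℝ) + 1) ^ 2 ≤ 2 * (1 + ‖a n - z₀‖ ^ 2) := by
      have h3 : (0:ℝ) ≤ k n := Nat.cast_nonneg _
      nlinarith [sq_nonneg (‖a n - z₀‖ - 1), norm_nonneg (a n - z₀)]
    have h3 : ‖a n - z₀‖ ^ 2 ≤ 2 * ‖a n‖ ^ 2 + 2 * ‖z₀‖ ^ 2 := by
      have h4 := norm_sub_le (a n) z₀
      nlinarith [norm_nonneg (a n - z₀), sq_nonneg (‖a n‖ - ‖z₀‖), norm_nonneg (a n), norm_nonneg z₀]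
    have h4 : ((k n : ℝ) + 1) ^ 2 ≤ 4 * Z * (1 + ‖a n‖ ^ 2) := by
      rw [hZ]
      nlinarith [mul_nonneg (sq_nonneg ‖a n‖) (sq_nonneg ‖z₀‖), sq_nonneg ‖a n‖, sq_nonneg ‖z₀‖]
    have h5 : ((k n : ℝ) + 1) ^ 4 ≤ 16 * Z ^ 2 * (1 + ‖a n‖ ^ 2) ^ 2 := by
      calc ((k n : ℝ) + 1) ^ 4 = (((k n : ℝ) + 1) ^ 2) ^ 2 := by ring
        _ ≤ (4 * Z * (1 + ‖a n‖ ^ 2)) ^ 2 := by
            apply pow_le_pow_left₀ (by positivity) h4
        _ = 16 * Z ^ 2 * (1 + ‖a n‖ ^ 2) ^ 2 := by ring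
    have h6 : (0:ℝ) < ((k n : ℝ) + 1) ^ 4 := by positivity
    have h7 : (0:ℝ) < (1 + ‖a n‖ ^ 2) ^ 2 := by positivity
    rw [← div_eq_mul_inv, le_div_iff₀ h6, inv_mul_eq_div, div_le_iff₀ h7]
    exact h5
  refine summable_of_sum_le (c := 16 * Z ^ 2 * (C * S)) (fun n => by positivity) (fun u => ?_)
  calc ∑ n ∈ u, ((1 + ‖a n‖ ^ 2) ^ 2)⁻¹ ≤ ∑ n ∈ u, 16 * Z ^ 2 * (((k n : ℝ) + 1) ^ 4)⁻¹ :=
        Finset.sum_le_sum fun n _ => hterm n
    _ = 16 * Z ^ 2 * ∑ n ∈ u, (((k n : ℝ) + 1) ^ 4)⁻¹ := by rw [Finset.mul_sum]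
    _ ≤ 16 * Z ^ 2 * (C * S) := by
      gcongr
      rw [← Finset.sum_fiberwise_of_maps_to (t := u.image k) (g := k)
        (fun n hn => Finset.mem_image_of_mem k hn)]
      calc ∑ j ∈ u.image k, ∑ n ∈ u with k n = j, (((k n : ℝ) + 1) ^ 4)⁻¹
          ≤ ∑ j ∈ u.image k, C * (((j : ℝ) + 1) ^ 3)⁻¹ := by
            apply Finset.sum_le_sum
            intro j _
            have h1 : ∑ n ∈ u with k n = j, (((k n : ℝ) + 1) ^ 4)⁻¹
                = ((u.filter (fun n => k n = j)).card : ℝ) * (((j : ℝ) + 1) ^ 4)⁻¹ := by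
              rw [Finset.sum_congr rfl (g := fun _ => (((j : ℝ) + 1) ^ 4)⁻¹)]
              · simp [Finset.sum_const, nsmul_eq_mul]
              · intro n hn
                rw [(Finset.mem_filter.1 hn).2]
            rw [h1]
            have h2 : ((u.filter (fun n => k n = j)).card : ℝ) ≤ C * (j + 1) := by
              have h3 := hcount ((u.filter (fun n => k n = j)).image a) (j + 1)
                (by have : (0:ℝ) ≤ j := Nat.cast_nonneg j
                    linarith) (by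
                  intro x hx
                  obtain ⟨n, _, rfl⟩ := Finset.mem_image.1 hx
                  exact h0 n) (by
                  intro x hx
                  obtain ⟨n, hn, rfl⟩ := Finset.mem_image.1 hx
                  have h4 := (Finset.mem_filter.1 hn).2
                  have h5 := Nat.lt_floor_add_one (‖a n - z₀‖)
                  have h6 : (⌊‖a n - z₀‖⌋₊ : ℝ) = j := by exact_mod_cast h4
                  rw [h6] at h5
                  exact h5.le)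
              rwa [Finset.card_image_of_injective _ ha] at h3
            have h3 : (0:ℝ) < (j : ℝ) + 1 := by positivity
            calc ((u.filter (fun n => k n = j)).card : ℝ) * (((j : ℝ) + 1) ^ 4)⁻¹
                ≤ (C * (j + 1)) * (((j : ℝ) + 1) ^ 4)⁻¹ := by gcongr
              _ = C * (((j : ℝ) + 1) ^ 3)⁻¹ := by field_simp
        _ = C * ∑ j ∈ u.image k, (((j : ℝ) + 1) ^ 3)⁻¹ := by rw [Finset.mul_sum]
        _ ≤ C * S := by
            gcongr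
            exact hS.sum_le_tsum _ (fun j _ => by positivity)

end Pool.Agent.H69N.UI
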