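import Mathlib
import Pool.Agent.H69N.UI.Baire
import Pool.Agent.H69N.UI.Summ
import Pool.Agent.H69N.UI.Select

set_option autoImplicit false

open Filter Topology Metric Set

namespace Pool.Agent.H69N.UI

lemma iter_diff {g : ℂ → ℂ} (hg : Differentiable ℂ g) (k : ℕ) :
    Differentiable ℂ (iteratedDeriv k g) := by
  induction k with
  | zero => simpa using hg
  | succ k ih =>
    rw [iteratedDeriv_succ]
    exact ih.deriv

lemma iter_mul {g : ℂ → ℂ} (hg : Differentiable ℂ g) (a : ℂ) (k : ℕ) :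
    iteratedDeriv k (fun z => (z - a) * g z) =
      fun z => (z - a) * iteratedDeriv k g z + k * iteratedDeriv (k - 1) g z := by
  induction k with
  | zero => simp
  | succ k ih =>
    rw [iteratedDeriv_succ, ih]
    ext z
    have h1 : HasDerivAt (fun z => (z - a) * iteratedDeriv k g z)
        (1 * iteratedDeriv k g z + (z - a) * iteratedDeriv (k + 1) g z) z := by
      have h2 : HasDerivAt (iteratedDeriv k g) (iteratedDeriv (k + 1) g z) z := by
        rw [iteratedDeriv_succ]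
        exact (iter_diff hg k z).hasDerivAt
      exact ((hasDerivAt_id z).sub_const a).mul h2
    have h3 : HasDerivAt (fun z => (k : ℂ) * iteratedDeriv (k - 1) g z)
        ((k : ℂ) * iteratedDeriv k g z) z := by
      rcases Nat.eq_zero_or_pos k with hk | hk
      · subst hk
        simpa using hasDerivAt_const z (0 : ℂ)
      · have h2 : HasDerivAt (iteratedDeriv (k - 1) g) (iteratedDeriv k g z) z := by
          have h4 : iteratedDeriv k g = deriv (iteratedDeriv (k - 1) g) := by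
            rw [← iteratedDeriv_succ]
            congr 1
            omega
          rw [h4]
          exact (iter_diff hg (k - 1) z).hasDerivAt
        exact h2.const_mul _
    rw [(h1.fun_add h3).deriv]
    simp only [Nat.add_sub_cancel]
    push_cast
    ring

/-- main construction, finite version -/
lemma finite_version {a : ℕ → ℂ} {p : ℕ → ℕ} (hp : ∀ n, 1 ≤ p n)
    {A B : ℝ} (hA : 0 < A) {g : ℕ → ℂ → ℂ} (hg : ∀ n, Cls A B (g n))
    (hgd : ∀ n m, ∀ κ < p m, iteratedDeriv κ (g n) (a m) / (κ.factorial : ℂ) =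
      if (κ + 1 = p m ∧ m = n) then 1 else 0)
    {S : ℝ} (hS : ∀ u : Finset ℕ, ∑ n ∈ u, ((1 + ‖a n‖ ^ 2) ^ 2)⁻¹ ≤ S) {ε : ℝ} (hε : 0 < ε)
    (hεS : 2 * ε * S < 1) (N : ℕ) :
    ∃ f : ℂ → ℂ, Cls (A * S) (B + 1) f ∧ (∀ n, ∀ k < p n, iteratedDeriv k f (a n) = 0) ∧
      ∀ n < N, ε * ((1 + ‖a n‖ ^ 2) ^ 5)⁻¹ ≤
        ‖iteratedDeriv (p n) f (a n)‖ / ((p n).factorial : ℝ) := by
  classical
  set h : ℕ → ℂ → ℂ := fun n z => (z - a n) * g n z with hh
  have hhd : ∀ n, Differentiable ℂ (h n) := fun n => (differentiable_id.sub_const _).mul (hg n).1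
  have hhb : ∀ n z, ‖h n z‖ ≤ (1 + ‖a n‖ ^ 2) * (A * Real.exp ((B + 1) * rho z)) := by
    intro n z
    simp only [hh]
    rw [norm_mul]
    have h1 : ‖z - a n‖ ≤ (1 + ‖a n‖ ^ 2) * (1 + ‖z‖ ^ 2) := by
      have h2 := norm_sub_le z (a n)
      nlinarith [norm_nonneg z, norm_nonneg (a n), sq_nonneg (‖z‖ - 1/2), sq_nonneg (‖a n‖ - 1/2),
        mul_nonneg (sq_nonneg ‖z‖) (sq_nonneg ‖a n‖)]
    have h2 := (hg n).2 z
    have h3 := one_add_le_exp_rho z
    have h4 : Real.exp ((B + 1) * rho z) = Real.exp (B * rho z) * Real.exp (rho z) := by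
      rw [← Real.exp_add]
      ring_nf
    rw [h4]
    calc ‖z - a n‖ * ‖g n z‖ ≤ ((1 + ‖a n‖ ^ 2) * (1 + ‖z‖ ^ 2)) * (A * Real.exp (B * rho z)) := by
          gcongr
      _ ≤ ((1 + ‖a n‖ ^ 2) * Real.exp (rho z)) * (A * Real.exp (B * rho z)) := by gcongr
      _ = _ := by ring
  -- values of the derivatives
  have hlow : ∀ n m, ∀ k < p m, iteratedDeriv k (h n) (a m) = 0 := by
    intro n m k hk
    simp only [hh]
    rw [iter_mul (hg n).1]
    have hfac : ∀ j : ℕ, (j.factorial : ℂ) ≠ 0 := fun j => by exact_mod_cast j.factorial_ne_zero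
    have h1 : (a m - a n) * iteratedDeriv k (g n) (a m) = 0 := by
      have h2 := hgd n m k hk
      rw [div_eq_iff (hfac k)] at h2
      rw [h2]
      by_cases hmn : m = n
      · subst hmn
        simp
      · simp [hmn]
    have h3 : (k : ℂ) * iteratedDeriv (k - 1) (g n) (a m) = 0 := by
      rcases Nat.eq_zero_or_pos k with hk0 | hk0
      · simp [hk0]
      · have h2 := hgd n m (k - 1) (by omega)
        rw [div_eq_iff (hfac _)] at h2
        rw [h2, if_neg (by omega)]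
        simp
    simp only [h1, h3, add_zero]
  have htop : ∀ n, iteratedDeriv (p n) (h n) (a n) = ((p n).factorial : ℂ) := by
    intro n
    simp only [hh]
    rw [iter_mul (hg n).1]
    have hfac : ∀ j : ℕ, (j.factorial : ℂ) ≠ 0 := fun j => by exact_mod_cast j.factorial_ne_zero
    have h2 := hgd n n (p n - 1) (by have := hp n; omega)
    rw [div_eq_iff (hfac _), if_pos (by have := hp n; exact ⟨by omega, rfl⟩), one_mul] at h2
    simp only [sub_self, zero_mul, zero_add]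
    rw [h2]
    have h3 : (p n) * (p n - 1).factorial = (p n).factorial := Nat.mul_factorial_pred (by have := hp n; omega)
    exact_mod_cast h3
  -- selection
  set c : ℕ → ℝ := fun n => ((1 + ‖a n‖ ^ 2) ^ 3)⁻¹ with hc
  have hcpos : ∀ n, 0 < c n := fun n => by simp only [hc]; positivity
  set β : Fin N → Fin N → ℂ := fun n k =>
    (c k : ℂ) * (iteratedDeriv (p n) (h k) (a n) / ((p n).factorial : ℂ)) with hβ
  have hβd : ∀ n, β n n = (c n : ℂ) := by
    intro n
    simp only [hβ, htop]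
    rw [div_self (by exact_mod_cast (p n).factorial_ne_zero), mul_one]
  set t : Fin N → ℝ := fun n => ε * ((1 + ‖a n‖ ^ 2) ^ 5)⁻¹ with ht
  have hsum : ∑ n, 2 * t n / ‖β n n‖ < 1 := by
    have h1 : ∀ n : Fin N, 2 * t n / ‖β n n‖ = 2 * ε * ((1 + ‖a n‖ ^ 2) ^ 2)⁻¹ := by
      intro n
      rw [hβd, Complex.norm_real, Real.norm_of_nonneg (hcpos n).le]
      simp only [ht, hc]
      field_simp
    simp_rw [h1]
    rw [← Finset.mul_sum]
    have h2 : ∑ n : Fin N, ((1 + ‖a n‖ ^ 2) ^ 2)⁻¹ ≤ S := by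
      rw [Fin.sum_univ_eq_sum_range (fun n => ((1 + ‖a n‖ ^ 2) ^ 2)⁻¹) N]
      exact hS _
    calc 2 * ε * ∑ n : Fin N, ((1 + ‖a n‖ ^ 2) ^ 2)⁻¹ ≤ 2 * ε * S := by gcongr
      _ < 1 := hεS
  obtain ⟨x, hx1, hx2⟩ := select β t (fun n => by simp only [ht]; positivity)
    (fun n => by rw [hβd]; exact_mod_cast (hcpos n).ne') hsum
  set f : ℂ → ℂ := fun z => ∑ k : Fin N, ((x k : ℂ) * (c k : ℂ)) * h k z with hf
  have hiter : ∀ j z, iteratedDeriv j f z
      = ∑ k : Fin N, ((x k : ℂ) * (c k : ℂ)) * iteratedDeriv j (h k) z := by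
    intro j z
    simp only [hf]
    rw [iteratedDeriv_fun_sum]
    · apply Finset.sum_congr rfl
      intro k _
      rw [iteratedDeriv_const_mul_field]
    · intro k _
      exact (contDiff_const.mul (hhd k).contDiff).contDiffAt
  refine ⟨f, ⟨?_, ?_⟩, ?_, ?_⟩
  · simp only [hf]
    exact Differentiable.fun_sum fun k _ => (hhd k).const_mul _
  · intro z
    simp only [hf]
    calc ‖∑ k : Fin N, ((x k : ℂ) * (c k : ℂ)) * h k z‖
        ≤ ∑ k : Fin N, ‖((x k : ℂ) * (c k : ℂ)) * h k z‖ := norm_sum_le _ _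
      _ ≤ ∑ k : Fin N, ((1 + ‖a k‖ ^ 2) ^ 2)⁻¹ * (A * Real.exp ((B + 1) * rho z)) := by
          apply Finset.sum_le_sum
          intro k _
          rw [norm_mul, norm_mul, Complex.norm_real, Complex.norm_real,
            Real.norm_of_nonneg (hx1 k).1, Real.norm_of_nonneg (hcpos k).le]
          calc x k * c k * ‖h k z‖
              ≤ 1 * c k * ((1 + ‖a k‖ ^ 2) * (A * Real.exp ((B + 1) * rho z))) := by
                have h1 := (hx1 k).2
                have h2 := (hcpos k).le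
                have h3 := (hx1 k).1
                have h4 := hhb k z
                gcongr
            _ = ((1 + ‖a k‖ ^ 2) ^ 2)⁻¹ * (A * Real.exp ((B + 1) * rho z)) := by
                simp only [hc]
                field_simp
      _ = (∑ k : Fin N, ((1 + ‖a k‖ ^ 2) ^ 2)⁻¹) * (A * Real.exp ((B + 1) * rho z)) := by
          rw [Finset.sum_mul]
      _ ≤ S * (A * Real.exp ((B + 1) * rho z)) := by
          have h2 : ∑ n : Fin N, ((1 + ‖a n‖ ^ 2) ^ 2)⁻¹ ≤ S := by
            rw [Fin.sum_univ_eq_sum_range (fun n => ((1 + ‖a n‖ ^ 2) ^ 2)⁻¹) N]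
            exact hS _
          gcongr
      _ = A * S * Real.exp ((B + 1) * rho z) := by ring
  · intro n k hk
    rw [hiter]
    apply Finset.sum_eq_zero
    intro j _
    rw [hlow j n k hk, mul_zero]
  · intro n hn
    have h1 := hx2 ⟨n, hn⟩
    have h2 : ∑ k, (x k : ℂ) * β ⟨n, hn⟩ k
        = iteratedDeriv (p n) f (a n) / ((p n).factorial : ℂ) := by
      rw [hiter, Finset.sum_div]
      apply Finset.sum_congr rfl
      intro k _
      simp only [hβ]
      ring
    rw [h2, norm_div, Complex.norm_natCast] at h1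
    exact h1

theorem main {a : ℕ → ℂ} {p : ℕ → ℕ} (ha : Function.Injective a) (hp : ∀ n, 1 ≤ p n)
    (hF : ∃ F : ℂ → ℂ, (∃ A > (0:ℝ), ∃ B > (0:ℝ), Cls A B F) ∧ (∃ z, F z ≠ 0) ∧
      ∀ n, ∀ k < p n, iteratedDeriv k F (a n) = 0)
    (hint : ∀ s : ℕ → Bool, ∃ g, (∃ A > (0:ℝ), ∃ B > (0:ℝ), Cls A B g) ∧ Del a p s g) :
    ∃ f : ℂ → ℂ, (∃ A > (0:ℝ), ∃ B > (0:ℝ), Cls A B f) ∧ (∃ z, f z ≠ 0) ∧
      (∀ n, ∀ k < p n, iteratedDeriv k f (a n) = 0) ∧
      ∃ ε > (0:ℝ), ∃ c > (0:ℝ), ∀ n,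
        ε * Real.exp (-(c * rho (a n))) ≤
          ‖iteratedDeriv (p n) f (a n)‖ / ((p n).factorial : ℝ) := by
  obtain ⟨F, ⟨A₀, hA₀, B₀, hB₀, hFc⟩, ⟨z₀, hz₀⟩, hF0⟩ := hF
  have hsum : Summable (fun n => ((1 + ‖a n‖ ^ 2) ^ 2)⁻¹) :=
    summ hA₀ hB₀ hFc hz₀ ha (fun n => by simpa using hF0 n 0 (hp n))
  set S : ℝ := 1 + ∑' n, ((1 + ‖a n‖ ^ 2) ^ 2)⁻¹ with hSdef
  have hT : 0 ≤ ∑' n, ((1 + ‖a n‖ ^ 2) ^ 2)⁻¹ := tsum_nonneg fun n => by positivity
  have hSpos : 0 < S := by rw [hSdef]; linarith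
  have hS : ∀ u : Finset ℕ, ∑ n ∈ u, ((1 + ‖a n‖ ^ 2) ^ 2)⁻¹ ≤ S := by
    intro u
    have := hsum.sum_le_tsum u (fun n _ => by positivity)
    rw [hSdef]
    linarith
  obtain ⟨A, hA, B, hB, hunif⟩ := unif hint
  choose g hg hgd using hunif
  set ε : ℝ := 1 / (4 * S) with hε
  have hεpos : 0 < ε := by positivity
  have hεS : 2 * ε * S < 1 := by
    rw [hε]
    field_simp
    norm_num
  have hfin := finite_version hp hA hg hgd hS hεpos hεS
  choose f hf1 hf2 hf3 using hfin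
  obtain ⟨f', hf'1, hf'2⟩ := compact_cls (Filter.hyperfilter ℕ) hf1
  have hder : ∀ n, ε * Real.exp (-(5 * rho (a n))) ≤
      ‖iteratedDeriv (p n) f' (a n)‖ / ((p n).factorial : ℝ) := by
    intro n
    have h1 : ε * ((1 + ‖a n‖ ^ 2) ^ 5)⁻¹ ≤
        ‖iteratedDeriv (p n) f' (a n)‖ / ((p n).factorial : ℝ) := by
      have h2 := ((hf'2 (p n) (a n)).norm).div_const ((p n).factorial : ℝ)
      refine ge_of_tendsto h2 ?_
      have h3 : ∀ᶠ N in (Filter.hyperfilter ℕ : Filter ℕ), n < N :=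
        (Filter.hyperfilter_le_cofinite).trans (Nat.cofinite_eq_atTop).le (eventually_gt_atTop n)
      filter_upwards [h3] with N hN
      exact hf3 N n hN
    refine le_trans ?_ h1
    have h4 : (1 + ‖a n‖ ^ 2) ^ 5 ≤ Real.exp (5 * rho (a n)) := by
      have h5 := one_add_le_exp_rho (a n)
      calc (1 + ‖a n‖ ^ 2) ^ 5 ≤ (Real.exp (rho (a n))) ^ 5 := by gcongr
        _ = Real.exp (5 * rho (a n)) := by
            rw [← Real.exp_nat_mul]
            norm_num
    rw [Real.exp_neg]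
    gcongr
  refine ⟨f', ⟨A * S, by positivity, B + 1, by positivity, hf'1⟩, ?_, ?_, ε, hεpos, 5, by norm_num,
    hder⟩
  · by_contra hcon
    push Not at hcon
    have h0 : f' = fun _ => 0 := funext hcon
    have h1 := hder 0
    rw [h0] at h1
    have h2 : iteratedDeriv (p 0) (fun _ : ℂ => (0 : ℂ)) (a 0) = 0 := by
      simp
    rw [h2] at h1
    simp only [norm_zero, zero_div] at h1
    have h3 : 0 < ε * Real.exp (-(5 * rho (a 0))) := by positivity
    linarith
  · intro n k hk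
    have h1 := hf'2 k (a n)
    have h2 : Tendsto (fun N => iteratedDeriv k (f N) (a n)) (Filter.hyperfilter ℕ) (𝓝 0) := by
      refine tendsto_const_nhds.congr' ?_
      exact Eventually.of_forall fun N => (hf2 N n k hk).symm
    exact tendsto_nhds_unique h1 h2

end Pool.Agent.H69N.UI
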